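import Pool.Agent.helper64.QF.Spec

set_option autoImplicit false

namespace Pool.Agent.helper64.QF

open Metric MeasureTheory Set Filter Topology
open Pool.Agent.helper37.PR

/-- the primitive of a continuous function on an interval -/
noncomputable def LAN_prim {n : ℕ} (τ : ℝ) (hτ : 0 ≤ τ) (y : C(Icc (0 : ℝ) τ, E n)) : C(Icc (0 : ℝ) τ, E n) where
  toFun t := ∫ s in (0 : ℝ)..t, IccExtend hτ (fun u => y u) s
  continuous_toFun := by
    have hc : Continuous (IccExtend hτ (fun u => y u)) := y.continuous.Icc_extend'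
    have h1 : Continuous (fun t : ℝ => ∫ s in (0 : ℝ)..t, IccExtend hτ (fun u => y u) s) :=
      intervalIntegral.continuous_primitive (fun a b => hc.intervalIntegrable a b) 0
    exact h1.comp continuous_subtype_val

theorem LAN_prim_apply {n : ℕ} (τ : ℝ) (hτ : 0 ≤ τ) (y : C(Icc (0 : ℝ) τ, E n)) (t : Icc (0 : ℝ) τ) :
    LAN_prim τ hτ y t = ∫ s in (0 : ℝ)..t, IccExtend hτ (fun u => y u) s := rfl

/-- the integration operator -/
noncomputable def LAN_J (n : ℕ) (τ : ℝ) (hτ : 0 ≤ τ) : C(Icc (0 : ℝ) τ, E n) →L[ℂ] C(Icc (0 : ℝ) τ, E n) :=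
  LinearMap.mkContinuous
    { toFun := LAN_prim τ hτ
      map_add' := by
        intro x y
        ext1 t
        rw [ContinuousMap.add_apply, LAN_prim_apply, LAN_prim_apply, LAN_prim_apply, ← intervalIntegral.integral_add
          ((x.continuous.Icc_extend' (h := hτ)).intervalIntegrable _ _) ((y.continuous.Icc_extend' (h := hτ)).intervalIntegrable _ _)]
        rfl
      map_smul' := by
        intro c x
        ext1 t
        rw [RingHom.id_apply, ContinuousMap.smul_apply, LAN_prim_apply, LAN_prim_apply, ← intervalIntegral.integral_smul]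
        rfl } τ (by
    intro x
    rw [ContinuousMap.norm_le _ (mul_nonneg hτ (norm_nonneg x))]
    intro t
    have h1 : ‖∫ s in (0 : ℝ)..t, IccExtend hτ (fun u => x u) s‖ ≤ ‖x‖ * |(t : ℝ) - 0| := by
      apply intervalIntegral.norm_integral_le_of_norm_le_const
      intro s _
      exact x.norm_coe_le_norm _
    rw [sub_zero, abs_of_nonneg t.2.1] at h1
    have h2 : ‖x‖ * (t : ℝ) ≤ τ * ‖x‖ := by
      rw [mul_comm]
      exact mul_le_mul_of_nonneg_right t.2.2 (norm_nonneg x)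
    exact h1.trans h2)

theorem LAN_J_apply {n : ℕ} (τ : ℝ) (hτ : 0 ≤ τ) (y : C(Icc (0 : ℝ) τ, E n)) (t : Icc (0 : ℝ) τ) :
    LAN_J n τ hτ y t = ∫ s in (0 : ℝ)..t, IccExtend hτ (fun u => y u) s := rfl

theorem LAN_J_norm (n : ℕ) (τ : ℝ) (hτ : 0 ≤ τ) : ‖LAN_J n τ hτ‖ ≤ τ :=
  LinearMap.mkContinuous_norm_le _ hτ _

/-- constant functions -/
noncomputable def LAN_c (n : ℕ) (τ : ℝ) : E n →L[ℂ] C(Icc (0 : ℝ) τ, E n) :=
  LinearMap.mkContinuous
    { toFun := fun z => ContinuousMap.const _ z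
      map_add' := fun x y => rfl
      map_smul' := fun c x => rfl } 1 (by
    intro x
    rw [ContinuousMap.norm_le _ (by positivity)]
    intro t
    rw [one_mul]
    exact le_refl _)

theorem LAN_c_apply {n : ℕ} (τ : ℝ) (z : E n) (t : Icc (0 : ℝ) τ) : LAN_c n τ z t = z := rfl

/-- the evaluation -/
noncomputable def LAN_e (n : ℕ) (τ : ℝ) (t : Icc (0 : ℝ) τ) : C(Icc (0 : ℝ) τ, E n) →L[ℂ] E n :=
  LinearMap.mkContinuous
    { toFun := fun x => x t
      map_add' := fun x y => rfl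
      map_smul' := fun c x => rfl } 1 (by
    intro x
    rw [one_mul]
    exact x.norm_coe_le_norm t)

theorem LAN_e_apply {n : ℕ} (τ : ℝ) (t : Icc (0 : ℝ) τ) (x : C(Icc (0 : ℝ) τ, E n)) : LAN_e n τ t x = x t := rfl

theorem LAN_ftc {n : ℕ} (h : E n → E n) (hh : Continuous h) (τ : ℝ) (z : E n) (X : ℝ → E n) (hX0 : X 0 = z)
    (hX : ∀ t ∈ Icc (0 : ℝ) τ, HasDerivWithinAt X (-(h (X t))) (Icc (0 : ℝ) τ) t) (t : ℝ) (ht : t ∈ Icc (0 : ℝ) τ) :
    X t + ∫ s in (0 : ℝ)..t, h (X s) = z := by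
  have hcont : ContinuousOn X (Icc (0 : ℝ) τ) := fun s hs => (hX s hs).continuousWithinAt
  have hsub : Icc (0 : ℝ) t ⊆ Icc (0 : ℝ) τ := Icc_subset_Icc_right ht.2
  have hci : ContinuousOn (fun s => h (X s)) (Icc (0 : ℝ) t) := hh.comp_continuousOn (hcont.mono hsub)
  have h1 : (∫ s in (0 : ℝ)..t, -(h (X s))) = X t - X 0 := by
    apply intervalIntegral.integral_eq_sub_of_hasDerivAt_of_le ht.1 (hcont.mono hsub)
    · intro s hs
      exact (hX s (hsub (Ioo_subset_Icc_self hs))).hasDerivAt (Icc_mem_nhds hs.1 (lt_of_lt_of_le hs.2 ht.2))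
    · apply ContinuousOn.intervalIntegrable
      rw [uIcc_of_le ht.1]
      exact hci.neg
  rw [intervalIntegral.integral_neg, hX0] at h1
  have h2 : (∫ s in (0 : ℝ)..t, h (X s)) = z - X t := by
    rw [← neg_inj, h1]; abel
  rw [h2]; abel

theorem LAN (hNEM : NEM_stmt) (hLEX : LEX_stmt) : LAN_stmt := by
  intro n A p hC
  obtain ⟨τ₀, K, hτ₀, hK, hKτ, hlip, hX⟩ := hLEX n A p hC
  refine ⟨τ₀, hτ₀, ?_⟩
  intro τ hτ hττ
  obtain ⟨X, hinit, hmem, hder, hL⟩ := hX τ hτ hττ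
  refine ⟨X, hinit, hmem, hder, ?_⟩
  have hτ0 : (0 : ℝ) ≤ τ := hτ.le
  obtain ⟨N, hN, hNan⟩ := hNEM n p τ
  have hpc : Continuous (pm p) := by
    unfold pm ev
    apply (PiLp.continuous_toLp 2 (fun _ : Fin n => ℂ)).comp
    apply continuous_pi
    intro j
    apply (MvPolynomial.continuous_eval (p j)).comp
    exact PiLp.continuous_ofLp 2 (fun _ : Fin n => ℂ)
  -- the curves as elements of the function space
  have hcX : ∀ z ∈ ball (0 : E n) 1, Continuous (fun t : Icc (0 : ℝ) τ => X z t) := by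
    intro z hz
    have : ContinuousOn (X z) (Icc (0 : ℝ) τ) := fun s hs => (hder z hz s hs).continuousWithinAt
    exact this.domRestrict
  intro t ht z₀ hz₀
  set J := LAN_J n τ hτ0 with hJ
  set F : C(Icc (0 : ℝ) τ, E n) → C(Icc (0 : ℝ) τ, E n) := fun x => x + J (N x) with hF
  set x₀ : C(Icc (0 : ℝ) τ, E n) := ⟨fun t => X z₀ t, hcX z₀ hz₀⟩ with hx₀
  have hx₀n : ‖x₀‖ < 2 := by
    have : ‖x₀‖ ≤ 1 := by
      rw [ContinuousMap.norm_le _ zero_le_one]
      intro s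
      have := hmem z₀ hz₀ s s.2
      rw [mem_ball_zero_iff] at this
      exact this.le
    linarith
  -- the derivative of N
  have hNlip : LipschitzOnWith (Real.toNNReal K) N (ball 0 2) := by
    apply LipschitzOnWith.of_dist_le_mul
    intro x hx y hy
    rw [mem_ball_zero_iff] at hx hy
    rw [Real.coe_toNNReal K hK, ContinuousMap.dist_le (mul_nonneg hK dist_nonneg)]
    intro s
    rw [hN, hN, dist_eq_norm]
    have h1 := hlip (x s) (y s) ((x.norm_coe_le_norm s).trans hx.le) ((y.norm_coe_le_norm s).trans hy.le)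
    have h2 : ‖x s - y s‖ ≤ dist x y := by
      rw [← dist_eq_norm]
      exact ContinuousMap.dist_apply_le_dist s
    exact h1.trans (mul_le_mul_of_nonneg_left h2 hK)
  have hDN : ‖fderiv ℂ N x₀‖ ≤ K := by
    have h1 : ball (0 : C(Icc (0 : ℝ) τ, E n)) 2 ∈ 𝓝 x₀ := isOpen_ball.mem_nhds (by rw [mem_ball_zero_iff]; exact hx₀n)
    have h2 := norm_fderiv_le_of_lipschitzOn ℂ h1 hNlip
    rwa [Real.coe_toNNReal K hK] at h2
  have hNd : HasFDerivAt N (fderiv ℂ N x₀) x₀ := (hNan x₀ (mem_univ _)).differentiableAt.hasFDerivAt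
  have hsmall : ‖-(J.comp (fderiv ℂ N x₀))‖ < 1 := by
    rw [ContinuousLinearMap.opNorm_neg]
    have h1 := ContinuousLinearMap.opNorm_comp_le J (fderiv ℂ N x₀)
    have h2 : ‖J‖ * ‖fderiv ℂ N x₀‖ ≤ τ * K := mul_le_mul (LAN_J_norm n τ hτ0) hDN (ContinuousLinearMap.opNorm_nonneg _) hτ0
    have h3 : τ * K ≤ τ₀ * K := mul_le_mul_of_nonneg_right hττ hK
    linarith
  set T : C(Icc (0 : ℝ) τ, E n) →L[ℂ] C(Icc (0 : ℝ) τ, E n) := -(J.comp (fderiv ℂ N x₀)) with hT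
  set e : C(Icc (0 : ℝ) τ, E n) ≃L[ℂ] C(Icc (0 : ℝ) τ, E n) := ContinuousLinearEquiv.ofUnit (Units.oneSub T hsmall) with he
  have hecoe : (e : C(Icc (0 : ℝ) τ, E n) →L[ℂ] C(Icc (0 : ℝ) τ, E n)) =
      ContinuousLinearMap.id ℂ _ + J.comp (fderiv ℂ N x₀) := by
    ext1 x
    have h1 : (e : C(Icc (0 : ℝ) τ, E n) →L[ℂ] C(Icc (0 : ℝ) τ, E n)) x = (1 - T) x := rfl
    rw [h1, hT]
    simp
  have hFd : HasFDerivAt F (e : C(Icc (0 : ℝ) τ, E n) →L[ℂ] C(Icc (0 : ℝ) τ, E n)) x₀ := by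
    rw [hecoe]
    exact (hasFDerivAt_id x₀).add (J.hasFDerivAt.comp x₀ hNd)
  have hFan : AnalyticAt ℂ F x₀ := by
    apply AnalyticAt.add analyticAt_id
    exact (J.analyticAt _).comp (hNan x₀ (mem_univ _))
  have hFc : ContDiffAt ℂ (⊤ : WithTop ℕ∞) F x₀ := hFan.contDiffAt
  have hne : (⊤ : WithTop ℕ∞) ≠ 0 := by simp
  have hGc := hFc.to_localInverse hFd hne
  have hGan : AnalyticAt ℂ (hFc.localInverse hFd hne) (F x₀) := hGc.analyticAt
  have hleft : ∀ᶠ x in 𝓝 x₀, hFc.localInverse hFd hne (F x) = x :=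
    (hFc.hasStrictFDerivAt' hFd hne).eventually_left_inverse
  -- the equation
  have heq : ∀ (z : E n) (hz : z ∈ ball (0 : E n) 1), F ⟨fun t => X z t, hcX z hz⟩ = LAN_c n τ z := by
    intro z hz
    ext1 s
    rw [LAN_c_apply]
    have h1 : F ⟨fun t => X z t, hcX z hz⟩ s = X z s + ∫ u in (0 : ℝ)..s, IccExtend hτ0 (fun v => N ⟨fun t => X z t, hcX z hz⟩ v) u := rfl
    rw [h1]
    have h2 : (∫ u in (0 : ℝ)..s, IccExtend hτ0 (fun v => N ⟨fun t => X z t, hcX z hz⟩ v) u) = ∫ u in (0 : ℝ)..s, pm p (X z u) := by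
      apply intervalIntegral.integral_congr
      intro u hu
      rw [uIcc_of_le s.2.1] at hu
      have hu' : u ∈ Icc (0 : ℝ) τ := ⟨hu.1, hu.2.trans s.2.2⟩
      simp only []
      rw [IccExtend_of_mem hτ0 _ hu', hN]
      rfl
    rw [h2]
    exact LAN_ftc (pm p) hpc τ z (X z) (hinit z hz) (hder z hz) s s.2
  -- closeness
  have hclose : ∀ (z : E n) (hz : z ∈ ball (0 : E n) 1), dist (⟨fun t => X z t, hcX z hz⟩ : C(Icc (0 : ℝ) τ, E n)) x₀ ≤ 2 * dist z z₀ := by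
    intro z hz
    rw [ContinuousMap.dist_le (by positivity)]
    intro s
    have := hL z hz z₀ hz₀ s s.2
    rw [dist_eq_norm, dist_eq_norm]
    exact this
  obtain ⟨ε, hε, hball⟩ := Metric.eventually_nhds_iff_ball.mp hleft
  have hev : ∀ᶠ z in 𝓝 z₀, X z t = LAN_e n τ ⟨t, ht⟩ (hFc.localInverse hFd hne (LAN_c n τ z)) := by
    have h1 : ∀ᶠ z in 𝓝 z₀, z ∈ ball (0 : E n) 1 := isOpen_ball.mem_nhds hz₀
    have h2 : ∀ᶠ z in 𝓝 z₀, dist z z₀ < ε / 2 := Metric.eventually_nhds_iff.mpr ⟨ε / 2, by positivity, fun z hz => hz⟩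
    filter_upwards [h1, h2] with z hz hz'
    have h3 : (⟨fun t => X z t, hcX z hz⟩ : C(Icc (0 : ℝ) τ, E n)) ∈ ball x₀ ε := by
      rw [mem_ball]
      have := hclose z hz
      linarith
    have h4 := hball _ h3
    rw [heq z hz] at h4
    rw [h4, LAN_e_apply]
    rfl
  have hA1 : AnalyticAt ℂ (fun z : E n => LAN_e n τ ⟨t, ht⟩ (hFc.localInverse hFd hne (LAN_c n τ z))) z₀ := by
    have hF0 : F x₀ = LAN_c n τ z₀ := heq z₀ hz₀
    rw [hF0] at hGan
    have h1 : AnalyticAt ℂ (fun z : E n => hFc.localInverse hFd hne (LAN_c n τ z)) z₀ :=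
      AnalyticAt.fun_comp hGan ((LAN_c n τ).analyticAt z₀)
    exact AnalyticAt.fun_comp ((LAN_e n τ ⟨t, ht⟩).analyticAt _) h1
  exact hA1.congr (hev.mono fun z hz => hz.symm)

end Pool.Agent.helper64.QF
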